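import Pool.Agent.R966.FBM.NotBBM

/-! There is a decomposable process (hence a forward Brownian motion) with pieces of length at
most one which is not a backward Brownian motion. -/

set_option autoImplicit false

open scoped ENNReal NNReal Topology
open MeasureTheory ProbabilityTheory Set Filter
open Pool.Agent.R966.FBM

namespace Pool.Agent.Results.MP_d1eed2_pr.BoundedPieces

theorem result : ∃ (Ω : Type) (_ : MeasurableSpace Ω) (P : Measure Ω) (X : ℝ → Ω → ℝ)
    (T : ℤ → Ω → ℝ≥0), IsProbabilityMeasure P ∧ (∀ t, Measurable (X t)) ∧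
    IsDecomposable X P T ∧ (∀ k ω, T k ω ≤ 1) ∧ ¬ IsBBM X P := by
  obtain ⟨W, hW⟩ := stmtWiener
  exact ⟨Om, inferInstance, PP W, XX, LL, prob_PP hW, measurable_XX, decomposable hW,
    fun k ω => TT_le_one k _, not_bbm hW⟩

end Pool.Agent.Results.MP_d1eed2_pr.BoundedPieces
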